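import Pool.Agent.helper97.IRO.Spec

set_option autoImplicit false

/-! # Finitely generated groups have cofinal elements (row iro:CT2) -/

open MeasureTheory Pool.Agent.LOF

namespace Pool.Agent.IRO

/-- the finite set version -/
lemma CT2_aux (hHU : HU_stmt) {G : Type} [Group G] {P : G → Prop} (hP : Cone P) (hC : Conr P)
    (S : Set G) (hS : S.Finite) : (∀ s ∈ S, s = 1) ∨
      ∃ g, P g ∧ g ∈ Subgroup.closure S ∧
        ∀ s ∈ S, (∃ n : ℕ, P (s⁻¹ * g ^ n)) ∧ ∃ n : ℕ, P (s * g ^ n) := by
  induction S, hS using Set.Finite.induction_on with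
  | empty => left; intro s hs; exact absurd hs (Set.notMem_empty s)
  | @insert s S _ _ ih =>
    by_cases hs1 : s = 1
    · rcases ih with h | ⟨g, hg, hgS, h⟩
      · left
        rintro t (rfl | ht)
        · exact hs1
        · exact h t ht
      · right
        refine ⟨g, hg, Subgroup.closure_mono (Set.subset_insert s S) hgS, ?_⟩
        rintro t (rfl | ht)
        · rw [hs1]
          refine ⟨⟨1, ?_⟩, 1, ?_⟩
          · simpa using hg
          · simpa using hg
        · exact h t ht
    · right
      -- the absolute value of `s`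
      obtain ⟨a, ha, haS, hsa⟩ : ∃ a, P a ∧ a ∈ Subgroup.closure (insert s S) ∧
          ∀ K : Subgroup G, a ∈ K → s ∈ K := by
        rcases hP.tri s hs1 with h | h
        · exact ⟨s, h, Subgroup.subset_closure (Set.mem_insert s S), fun K hK => hK⟩
        · exact ⟨s⁻¹, h, Subgroup.inv_mem _ (Subgroup.subset_closure (Set.mem_insert s S)),
            fun K hK => by simpa using K.inv_mem hK⟩
      obtain ⟨Ka, haKa, hKa⟩ := hHU G P hP hC a ha
      rcases ih with h | ⟨g, hg, hgS, h⟩
      · refine ⟨a, ha, haS, ?_⟩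
        rintro t (rfl | ht)
        · exact (hKa _).1 (hsa Ka haKa)
        · rw [h t ht]
          exact (hKa _).1 Ka.one_mem
      · obtain ⟨Kg, hgKg, hKg⟩ := hHU G P hP hC g hg
        rcases hP.tri' (a⁻¹ * g) with h1 | h1 | h1
        · -- `a < g`
          refine ⟨g, hg, Subgroup.closure_mono (Set.subset_insert s S) hgS, ?_⟩
          have haK : a ∈ Kg := (hKg a).2 ⟨⟨1, by simpa using h1⟩, 1, by
            rw [pow_one]; exact hP.mul _ _ ha hg⟩
          rintro t (rfl | ht)
          · exact (hKg _).1 (hsa Kg haK)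
          · exact h t ht
        · refine ⟨g, hg, Subgroup.closure_mono (Set.subset_insert s S) hgS, ?_⟩
          have haK : a ∈ Kg := by
            rw [inv_mul_eq_one] at h1
            rw [h1]; exact hgKg
          rintro t (rfl | ht)
          · exact (hKg _).1 (hsa Kg haK)
          · exact h t ht
        · -- `g < a`
          refine ⟨a, ha, haS, ?_⟩
          have h2 : P (g⁻¹ * a) := by simpa using h1
          have hgK : g ∈ Ka := (hKa g).2 ⟨⟨1, by simpa using h2⟩, 1, by
            rw [pow_one]; exact hP.mul _ _ hg ha⟩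
          rintro t (rfl | ht)
          · exact (hKa _).1 (hsa Ka haKa)
          · obtain ⟨⟨n, hn⟩, m, hm⟩ := h t ht
            obtain ⟨⟨k, hk⟩, -⟩ := (hKa (g ^ n)).1 (Ka.pow_mem hgK n)
            obtain ⟨⟨l, hl⟩, -⟩ := (hKa (g ^ m)).1 (Ka.pow_mem hgK m)
            refine ⟨⟨k, ?_⟩, l, ?_⟩
            · have := hP.mul _ _ hn hk
              rwa [mul_assoc, mul_inv_cancel_left] at this
            · have := hP.mul _ _ hm hl
              rwa [mul_assoc, mul_inv_cancel_left] at this

theorem CT2 (hHU : HU_stmt) : CT2_stmt := by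
  intro G _ P hP hC H hH hne
  obtain ⟨S, hS⟩ := hH
  rcases CT2_aux hHU hP hC (S : Set G) S.finite_toSet with h | ⟨g, hg, hgS, h⟩
  · exfalso
    apply hne
    rw [← hS, Subgroup.closure_eq_bot_iff]
    intro s hs
    exact h s hs
  · obtain ⟨K, -, hK⟩ := hHU G P hP hC g hg
    have hle : H ≤ K := by
      rw [← hS, Subgroup.closure_le]
      intro s hs
      exact (hK s).2 (h s hs)
    refine ⟨g, hg, hS ▸ hgS, fun k hk => ?_⟩
    obtain ⟨⟨n, hn⟩, -⟩ := (hK k).1 (hle hk)
    exact ⟨n, by rwa [zpow_natCast]⟩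

end Pool.Agent.IRO
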