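import Pool.Agent.helper97.IRO.Spec

set_option autoImplicit false

/-! # The Bernoulli measure depends measurably on the parameter (row iro:DF0) -/

open MeasureTheory Pool.Agent.LOF

namespace Pool.Agent.IRO

theorem DF0 : DF0_stmt := by
  refine Measurable.measure_of_isPiSystem_of_isProbabilityMeasure
    (S := squareCylinders fun _ : D => {s : Set Bool | MeasurableSet s})
    generateFrom_squareCylinders.symm
    (isPiSystem_squareCylinders (fun _ => MeasurableSpace.isPiSystem_measurableSet)
      (fun _ => by simp)) ?_
  rintro A ⟨s, t, ht, rfl⟩
  have h : (fun p : unitInterval => bernP p ((s : Set D).pi t))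
      = fun p : unitInterval => ∏ i ∈ s, coinP p (t i) := by
    funext p
    exact Measure.infinitePi_pi _ fun i _ => ht i (Set.mem_univ i)
  rw [h]
  refine Finset.measurable_prod s fun i _ => ?_
  have h2 : (fun p : unitInterval => coinP p (t i)) = fun p : unitInterval =>
      ENNReal.ofReal p.1 * Measure.dirac true (t i)
        + ENNReal.ofReal (1 - p.1) * Measure.dirac false (t i) := by
    funext p
    simp only [coinP, Measure.add_apply, Measure.smul_apply, smul_eq_mul]
  rw [h2]
  exact ((ENNReal.measurable_ofReal.comp measurable_subtype_coe).mul_const _).add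
    ((ENNReal.measurable_ofReal.comp (measurable_const.sub measurable_subtype_coe)).mul_const _)

end Pool.Agent.IRO
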