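import Pool.Agent.helper97.IRO.Spec

set_option autoImplicit false

/-! # Transitivity of `F` on increasing tuples of dyadics (row iro:G5) -/

open MeasureTheory Pool.Agent.LOF

namespace Pool.Agent.IRO

/-- every increasing tuple is an image of the standard tuple `i ↦ 2 ^ (i - n)` -/
lemma G5_std (h5 : G5a_stmt) (hE : EMB_stmt) : ∀ (n : ℕ) (d : Fin n → ℝ),
    (∀ i, IsDyadic (d i) ∧ 0 < d i ∧ d i < 1) → StrictMono d →
    ∃ g : F, ∀ i : Fin n, g.1 ((2 : ℝ) ^ ((i : ℕ) : ℤ) / 2 ^ n) = d i := by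
  intro n
  induction n with
  | zero => intro d _ _; exact ⟨1, fun i => i.elim0⟩
  | succ n ih =>
    intro d hd hm
    obtain ⟨h, hh⟩ := h5 (d (Fin.last n)) (hd _).1 (hd _).2.1 (hd _).2.2
    have h0 : h.1 0 = 0 := F.out h.2 (by simp)
    have key : ∀ i : Fin n, IsDyadic (2 * (h⁻¹ : F).1 (d i.castSucc)) ∧
        0 < 2 * (h⁻¹ : F).1 (d i.castSucc) ∧ 2 * (h⁻¹ : F).1 (d i.castSucc) < 1 := by
      intro i
      have hi0 : (h⁻¹ : F).1 0 = 0 := F.out (h⁻¹ : F).2 (by simp)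
      have hi1 : (h⁻¹ : F).1 (d (Fin.last n)) = 1 / 2 := by
        show h.1.symm (d (Fin.last n)) = 1 / 2
        rw [OrderIso.symm_apply_eq]
        exact hh.symm
      refine ⟨?_, ?_, ?_⟩
      · have := (F.dyadic (h⁻¹ : F).2 (hd i.castSucc).1).pow_mul 1
        rwa [zpow_one] at this
      · have := (h⁻¹ : F).1.strictMono (hd i.castSucc).2.1
        rw [hi0] at this
        linarith
      · have := (h⁻¹ : F).1.strictMono (hm (Fin.castSucc_lt_last i))
        rw [hi1] at this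
        linarith
    obtain ⟨g, hg⟩ := ih (fun i => 2 * (h⁻¹ : F).1 (d i.castSucc)) key (by
      intro i j hij
      have := (h⁻¹ : F).1.strictMono (hm (Fin.castSucc_lt_castSucc_iff.2 hij))
      show 2 * _ < 2 * _
      linarith)
    obtain ⟨φ, -, hφ, -⟩ := hE 1 0 (by norm_num)
    refine ⟨h * φ g, fun i => ?_⟩
    show h.1 ((φ g).1 _) = d i
    rw [hφ]
    refine Fin.lastCases ?_ (fun j => ?_) i
    · have e : (2 : ℝ) ^ 1 * ((2 : ℝ) ^ (((Fin.last n : Fin (n + 1)) : ℕ) : ℤ) / 2 ^ (n + 1)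
          - ((0 : ℕ) : ℝ) / 2 ^ 1) = 1 := by
        rw [Fin.val_last, zpow_natCast]
        field_simp
        push_cast
        ring
      rw [e, show g.1 1 = 1 from F.out g.2 (by simp), ← hh]
      norm_num
    · have e : (2 : ℝ) ^ 1 * ((2 : ℝ) ^ (((j.castSucc : Fin (n + 1)) : ℕ) : ℤ) / 2 ^ (n + 1)
          - ((0 : ℕ) : ℝ) / 2 ^ 1) = (2 : ℝ) ^ ((j : ℕ) : ℤ) / 2 ^ n := by
        rw [Fin.val_castSucc, zpow_natCast]
        field_simp
        push_cast
        ring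
      rw [e, hg j]
      have e2 : 2 * (h⁻¹ : F).1 (d j.castSucc) / 2 ^ 1 + ((0 : ℕ) : ℝ) / 2 ^ 1
          = h.1.symm (d j.castSucc) := by
        show 2 * h.1.symm (d j.castSucc) / 2 ^ 1 + ((0 : ℕ) : ℝ) / 2 ^ 1 = _
        push_cast
        ring
      rw [e2, OrderIso.apply_symm_apply]

theorem G5 (h5 : G5a_stmt) (hE : EMB_stmt) : G5_stmt := by
  intro n d d' hd hd' hm hm'
  obtain ⟨g, hg⟩ := G5_std h5 hE n d hd hm
  obtain ⟨g', hg'⟩ := G5_std h5 hE n d' hd' hm'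
  refine ⟨g' * g⁻¹, fun i => ?_⟩
  show g'.1 (g.1.symm (d i)) = d' i
  rw [← hg' i, ← hg i, OrderIso.symm_apply_apply]

end Pool.Agent.IRO
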